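import Pool.Agent.H7.GV.Stmts

/-!
Row GC9 of the board `gv9`: pointwise inequalities for the weights (after the row GC8 of helper66).
-/

set_option autoImplicit false

open Finset

namespace Pool.GV7

open Pool.Agent.H23.KT Pool.Agent.H46.KW Pool.KQ Pool.GT7 Pool.GU7

theorem GC9_ww_hi (p r B : ℕ) (hr : r ≤ p) (h : r ≤ B) :
    ww p r B = ((p : ℝ) + 3) * ((B : ℝ) + 1 - r) / (((p : ℝ) + 3 - r) * ((B : ℝ) + 1)) := by
  unfold ww gg
  rw [if_neg (by omega)]
  have h1 : (r : ℝ) ≤ p := by exact_mod_cast hr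
  have h5 : ((p : ℝ) + 3 - r) ≠ 0 := by
    have : 0 < ((p : ℝ) + 3 - r) := by linarith
    exact this.ne'
  have h6 : ((B : ℝ) + 1) ≠ 0 := by positivity
  push_cast
  field_simp
  ring

theorem GC9_ww_lo (p r B : ℕ) (h : B + 1 ≤ r) : ww p r B = 0 := by
  unfold ww gg
  rw [if_pos h, sub_self]

theorem GC9_desc (B N : ℕ) (h : 2 * B ≤ N) (k : ℕ) :
    2 ^ k * B.descFactorial k ≤ N.descFactorial k := by
  induction k with
  | zero => simp
  | succ k ih =>
    rw [Nat.descFactorial_succ, Nat.descFactorial_succ, pow_succ]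
    calc 2 ^ k * 2 * ((B - k) * B.descFactorial k)
        = (2 * (B - k)) * (2 ^ k * B.descFactorial k) := by ring
      _ ≤ (N - k) * N.descFactorial k := Nat.mul_le_mul (by omega) ih

theorem GC9_choose2 (B N : ℕ) (h : 2 * B ≤ N) (k : ℕ) : 2 ^ k * B.choose k ≤ N.choose k := by
  have h1 := GC9_desc B N h k
  rw [Nat.descFactorial_eq_factorial_mul_choose, Nat.descFactorial_eq_factorial_mul_choose] at h1
  have h2 : k.factorial * (2 ^ k * B.choose k) ≤ k.factorial * N.choose k := by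
    calc k.factorial * (2 ^ k * B.choose k) = 2 ^ k * (k.factorial * B.choose k) := by ring
      _ ≤ _ := h1
  exact Nat.le_of_mul_le_mul_left h2 (Nat.factorial_pos k)

theorem GC9_pow (w : ℕ) : 8 * (w + 5) ≤ 5 * 2 ^ (w + 3) := by
  induction w with
  | zero => norm_num
  | succ w ih =>
    rw [pow_succ]
    omega

theorem GC9_lo (x k n : ℕ) : x.choose (k + 1) + n * x.choose k ≤ (x + n).choose (k + 1) := by
  induction n with
  | zero => simp
  | succ n ih =>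
    rw [← add_assoc, Nat.choose_succ_succ]
    have : x.choose k ≤ (x + n).choose k := Nat.choose_le_choose k (by omega)
    nlinarith

theorem GC9_hi (x k n : ℕ) : (x + n).choose (k + 1) ≤ x.choose (k + 1) + n * (x + n).choose k := by
  induction n with
  | zero => simp
  | succ n ih =>
    rw [← add_assoc, Nat.choose_succ_succ]
    have : (x + n).choose k ≤ (x + n + 1).choose k := Nat.choose_le_choose k (by omega)
    nlinarith

/-- `choose · (k + 1)` is convex. -/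
theorem GC9_convex (r q b k : ℕ) (h1 : r ≤ q) (h2 : q ≤ b) :
    ((b : ℝ) - r) * q.choose (k + 1) ≤
      ((b : ℝ) - q) * r.choose (k + 1) + ((q : ℝ) - r) * b.choose (k + 1) := by
  obtain ⟨m, rfl⟩ := Nat.exists_eq_add_of_le h1
  obtain ⟨n, rfl⟩ := Nat.exists_eq_add_of_le h2
  have a1 : (((r + m).choose (k + 1) : ℕ) : ℝ) ≤
      r.choose (k + 1) + m * (r + m).choose k := by exact_mod_cast GC9_hi r k m
  have a2 : ((r + m).choose (k + 1) : ℝ) + n * (r + m).choose k ≤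
      (r + m + n).choose (k + 1) := by exact_mod_cast GC9_lo (r + m) k n
  have hm : (0 : ℝ) ≤ m := Nat.cast_nonneg m
  have hn : (0 : ℝ) ≤ n := Nat.cast_nonneg n
  have b1 := mul_le_mul_of_nonneg_left a1 hn
  have b2 := mul_le_mul_of_nonneg_left a2 hm
  push_cast
  nlinarith

theorem GC9_two (B N w : ℕ) (h : B ≤ N) : B.choose (w + 1) * N ≤ B * N.choose (w + 1) := by
  rcases Nat.eq_zero_or_pos B with rfl | hB
  · simp
  obtain ⟨B, rfl⟩ : ∃ B', B = B' + 1 := ⟨B - 1, by omega⟩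
  obtain ⟨N, rfl⟩ : ∃ N', N = N' + 1 := ⟨N - 1, by omega⟩
  have e1 := Nat.add_one_mul_choose_eq B w
  have e2 := Nat.add_one_mul_choose_eq N w
  have e3 : B.choose w ≤ N.choose w := Nat.choose_le_choose w (by omega)
  refine Nat.le_of_mul_le_mul_right (c := w + 1) ?_ (Nat.succ_pos w)
  calc (B + 1).choose (w + 1) * (N + 1) * (w + 1)
      = ((B + 1).choose (w + 1) * (w + 1)) * (N + 1) := by ring
    _ = ((B + 1) * B.choose w) * (N + 1) := by rw [e1]
    _ ≤ ((B + 1) * N.choose w) * (N + 1) :=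
        Nat.mul_le_mul_right _ (Nat.mul_le_mul_left _ e3)
    _ = (B + 1) * ((N + 1) * N.choose w) := by ring
    _ = (B + 1) * ((N + 1).choose (w + 1) * (w + 1)) := by rw [e2]
    _ = (B + 1) * (N + 1).choose (w + 1) * (w + 1) := by ring

theorem GC9_three (B N w : ℕ) (h : B ≤ N) :
    B.choose (w + 2) * (N * (N - 1)) ≤ B * (B - 1) * N.choose (w + 2) := by
  rcases Nat.eq_zero_or_pos B with rfl | hB
  · simp
  obtain ⟨B, rfl⟩ : ∃ B', B = B' + 1 := ⟨B - 1, by omega⟩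
  obtain ⟨N, rfl⟩ : ∃ N', N = N' + 1 := ⟨N - 1, by omega⟩
  have e1 := Nat.add_one_mul_choose_eq B (w + 1)
  have e2 := Nat.add_one_mul_choose_eq N (w + 1)
  have e3 : B.choose (w + 1) * N ≤ B * N.choose (w + 1) := GC9_two B N w (by omega)
  rw [Nat.add_sub_cancel, Nat.add_sub_cancel]
  refine Nat.le_of_mul_le_mul_right (c := w + 1 + 1) ?_ (Nat.succ_pos _)
  calc (B + 1).choose (w + 2) * ((N + 1) * N) * (w + 1 + 1)
      = ((B + 1).choose (w + 1 + 1) * (w + 1 + 1)) * ((N + 1) * N) := by ring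
    _ = ((B + 1) * B.choose (w + 1)) * ((N + 1) * N) := by rw [e1]
    _ = ((B + 1) * (N + 1)) * (B.choose (w + 1) * N) := by ring
    _ ≤ ((B + 1) * (N + 1)) * (B * N.choose (w + 1)) := Nat.mul_le_mul_left _ e3
    _ = (B + 1) * B * ((N + 1) * N.choose (w + 1)) := by ring
    _ = (B + 1) * B * ((N + 1).choose (w + 1 + 1) * (w + 1 + 1)) := by rw [e2]
    _ = (B + 1) * B * (N + 1).choose (w + 2) * (w + 1 + 1) := by ring

/-- for `B ≤ r - 1` -/
theorem GC9_small (p w r B : ℕ) (hw : 1 ≤ w) (hwp : w ≤ p) (h4 : 2 * r ≤ p + 2) (hB : B + 1 ≤ r) :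
    ((w : ℝ) + 3) * B.choose (w + 1) + 1 / 2 ≤ (p + 2).choose (w + 1) := by
  rcases Nat.lt_or_ge w 2 with h | h
  · have hw1 : w = 1 := by omega
    subst hw1
    show ((1 : ℕ) + 3 : ℝ) * B.choose 2 + 1 / 2 ≤ (p + 2).choose 2
    rw [Nat.cast_choose_two, Nat.cast_choose_two]
    have h5 : 2 * (B : ℝ) ≤ p := by
      have : 2 * B ≤ p := by omega
      exact_mod_cast this
    have h6 : (0 : ℝ) ≤ B := Nat.cast_nonneg B
    push_cast
    nlinarith
  · obtain ⟨v, rfl⟩ : ∃ v, w = v + 2 := ⟨w - 2, by omega⟩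
    have a1 : 2 ^ (v + 3) * B.choose (v + 3) ≤ (p + 2).choose (v + 3) :=
      GC9_choose2 B (p + 2) (by omega) (v + 3)
    have a2 : 8 * (v + 5) * B.choose (v + 3) ≤ 5 * (p + 2).choose (v + 3) := by
      calc 8 * (v + 5) * B.choose (v + 3) ≤ 5 * 2 ^ (v + 3) * B.choose (v + 3) :=
            Nat.mul_le_mul_right _ (GC9_pow v)
        _ = 5 * (2 ^ (v + 3) * B.choose (v + 3)) := by ring
        _ ≤ 5 * (p + 2).choose (v + 3) := Nat.mul_le_mul_left _ a1
    have a3 : 8 * ((v : ℝ) + 5) * B.choose (v + 3) ≤ 5 * (p + 2).choose (v + 3) := by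
      exact_mod_cast a2
    have a4 : 2 ≤ (p + 2).choose (v + 3) := by
      have e1 : (p + 2).choose (v + 3) = (p + 1).choose (v + 2) + (p + 1).choose (v + 3) :=
        Nat.choose_succ_succ _ _
      have e2 : 0 < (p + 1).choose (v + 2) := Nat.choose_pos (by omega)
      have e3 : 0 < (p + 1).choose (v + 3) := Nat.choose_pos (by omega)
      omega
    have a5 : (2 : ℝ) ≤ (p + 2).choose (v + 3) := by exact_mod_cast a4
    have e6 : (((v + 2 : ℕ) : ℝ) + 3) * B.choose (v + 2 + 1) =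
        ((v : ℝ) + 5) * B.choose (v + 3) := by push_cast; ring
    rw [e6]
    show ((v : ℝ) + 5) * B.choose (v + 3) + 1 / 2 ≤ (p + 2).choose (v + 3)
    linarith

theorem GC9_thm : GC9Stmt := by
  intro p w r hP
  obtain ⟨w1, wp, r2, rb⟩ := hP
  have rp : r ≤ p := by omega
  have h1 : (r : ℝ) ≤ p := by exact_mod_cast rp
  have h2 : (2 : ℝ) ≤ r := by exact_mod_cast r2
  have hrb : 2 * (r : ℝ) ≤ p + 2 := by exact_mod_cast rb
  have hPR : 0 < (p : ℝ) + 3 - r := by linarith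
  have hc : (1 : ℝ) ≤ (p + 2).choose (w + 1) := by
    exact_mod_cast Nat.choose_pos (by omega : w + 1 ≤ p + 2)
  refine ⟨⟨wp, by omega, rp⟩, ?_, ?_, ?_, ?_, ?_⟩
  · obtain ⟨t, ht⟩ : ∃ t, p + 3 = r + t := ⟨p + 3 - r, by omega⟩
    have e1 : p + 3 - r = t := by omega
    rw [e1]
    have h3 : 2 * (r * (p + 3)) ≤ 2 * ((p + 2) * t) := by
      have h4 : 2 * r * (2 * p + 5) ≤ (p + 2) * (2 * p + 5) := Nat.mul_le_mul_right _ rb
      have h5 : (p + 2) * (p + 3) = (p + 2) * r + (p + 2) * t := by rw [ht]; ring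
      nlinarith
    calc 2 * r * (p + 3) = 2 * (r * (p + 3)) := by ring
      _ ≤ 2 * ((p + 2) * t) := h3
      _ = (p + 2) * (2 * t) := by ring
      _ ≤ (p + 2) * ((w + 1) * t) := Nat.mul_le_mul_left _ (Nat.mul_le_mul_right _ (by omega))
  · intro B hB
    have hB' : (B : ℝ) ≤ p + 2 := by exact_mod_cast hB
    have hB0 : (0 : ℝ) ≤ B := Nat.cast_nonneg B
    rcases Nat.lt_or_ge B r with h | h
    · rw [GC9_ww_lo p r B h]
      have h3 : (B : ℝ) + 1 ≤ r := by exact_mod_cast h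
      -- `s = r - 1`
      have h4 : (B : ℝ) * (B - 1) ≤ ((r : ℝ) - 1) * (r - 2) := by
        have := mul_nonneg (by linarith : (0 : ℝ) ≤ (r : ℝ) - 1 - B)
          (by linarith : (0 : ℝ) ≤ (r : ℝ) - 1 + B - 1)
        linarith
      have h5 : ((p : ℝ) + 3 - r) * (B * (B - 1)) ≤
          ((p : ℝ) + 3 - r) * (((r : ℝ) - 1) * (r - 2)) := mul_le_mul_of_nonneg_left h4 hPR.le
      have h6 : (0 : ℝ) ≤ ((r : ℝ) - 1) * (r - 2) := mul_nonneg (by linarith) (by linarith)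
      have h7 : (0 : ℝ) ≤ (2 * (p : ℝ) + 4 - r) * (r - 1 - B) :=
        mul_nonneg (by linarith) (by linarith)
      have h8 : ((p : ℝ) + 3 - r) * (((r : ℝ) - 1) * (r - 2)) ≤
          ((p : ℝ) + 2 - B) * (((r : ℝ) - 1) * (r - 2) + (2 * (p : ℝ) + 4 - r) * (r - 1 - B)) :=
        mul_le_mul (by linarith) (by linarith) h6 (by linarith)
      linarith
    · rw [GC9_ww_hi p r B rp h]
      have h3 : (r : ℝ) ≤ B := by exact_mod_cast h
      have hq : 0 < (B : ℝ) + 1 := by linarith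
      have e1 : ((p : ℝ) + 3 - r) * (((p : ℝ) + 2) * ((p : ℝ) + 1) * (((p : ℝ) + 3) *
          ((B : ℝ) + 1 - r) / (((p : ℝ) + 3 - r) * ((B : ℝ) + 1))) - B * ((B : ℝ) - 1)) =
          ((p : ℝ) + 2 - B) * (((p : ℝ) + 3 - r) * ((B : ℝ) + 1) * ((B : ℝ) + 1 + p) -
            r * ((p : ℝ) + 2) * ((p : ℝ) + 1)) / ((B : ℝ) + 1) := by
        field_simp
        ring
      rw [e1, le_div_iff₀ hq]
      rcases Nat.lt_or_ge B (p + 2) with h' | h'
      · have h5 : (B : ℝ) ≤ p + 1 := by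
          have : B ≤ p + 1 := by omega
          exact_mod_cast this
        have h6 : ((2 * (p : ℝ) + 4 - r) * B - 2 * ((r : ℝ) - 1) * ((p : ℝ) + 1)) * ((B : ℝ) + 1) ≤
            ((p : ℝ) + 3 - r) * ((B : ℝ) + 1) * ((B : ℝ) + 1 + p) -
            r * ((p : ℝ) + 2) * ((p : ℝ) + 1) := by
          have := mul_nonneg (mul_nonneg (by linarith : (0 : ℝ) ≤ (p : ℝ) + 1)
            (by linarith : (0 : ℝ) ≤ (B : ℝ) + 1 - r)) (by linarith : (0 : ℝ) ≤ (p : ℝ) + 1 - B)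
          linarith
        calc ((p : ℝ) + 2 - B) * ((2 * (p : ℝ) + 4 - r) * B - 2 * ((r : ℝ) - 1) * ((p : ℝ) + 1)) *
              ((B : ℝ) + 1)
            = ((p : ℝ) + 2 - B) * (((2 * (p : ℝ) + 4 - r) * B -
              2 * ((r : ℝ) - 1) * ((p : ℝ) + 1)) * ((B : ℝ) + 1)) := by ring
          _ ≤ _ := mul_le_mul_of_nonneg_left h6 (by linarith)
      · have h5 : (B : ℝ) = p + 2 := by
          have : B = p + 2 := le_antisymm hB h'
          exact_mod_cast this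
        have h6 : (p : ℝ) + 2 - B = 0 := by linarith
        rw [h6]
        simp
  · intro B hB
    obtain ⟨v, rfl⟩ : ∃ v, w = v + 1 := ⟨w - 1, by omega⟩
    have := GC9_three B (p + 2) v hB
    have e1 : p + 2 - 1 = p + 1 := by omega
    rw [e1] at this
    rcases Nat.eq_zero_or_pos B with rfl | hB0
    · simp
    obtain ⟨B, rfl⟩ : ∃ B', B = B' + 1 := ⟨B - 1, by omega⟩
    rw [Nat.add_sub_cancel] at this
    have h3 : ((B + 1).choose (v + 2) : ℝ) * (((p : ℝ) + 2) * ((p : ℝ) + 1)) ≤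
        ((B : ℝ) + 1) * B * (p + 2).choose (v + 2) := by exact_mod_cast this
    have e2 : ((B + 1 : ℕ) : ℝ) - 1 = B := by push_cast; ring
    rw [e2]
    push_cast
    exact h3
  · intro B hB
    have hP1 : 0 < (p : ℝ) + 3 := by linarith
    have hP2 : (1 : ℝ) ≤ ((p : ℝ) + 3) ^ 2 := by nlinarith
    rcases Nat.lt_or_ge B r with h | h
    · rw [GC9_ww_lo p r B h]
      have a1 := GC9_small p w r B w1 wp rb h
      have a2 : 1 / (4 * ((p : ℝ) + 3) ^ 2) ≤ 1 / 4 := by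
        rw [div_le_div_iff₀ (by positivity) (by norm_num)]
        linarith
      linarith
    · obtain ⟨s, rfl⟩ : ∃ s, r = s + 1 := ⟨r - 1, by omega⟩
      rw [GC9_ww_hi p (s + 1) B rp h]
      set c : ℝ := ((p + 2).choose (w + 1) : ℝ) with hcdef
      have hq : 0 < (B : ℝ) + 1 := by positivity
      have h3 : ((s : ℝ) + 1) ≤ B := by exact_mod_cast h
      have h5 : (B : ℝ) ≤ p + 1 := by exact_mod_cast hB
      have cv := GC9_convex (s + 1) (B + 1) (p + 3) (w + 1) (by omega) (by omega)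
      have e1 : ((p + 3 : ℕ) : ℝ) * c = ((p + 3).choose (w + 1 + 1) : ℝ) * ((w + 1 + 1 : ℕ) : ℝ) := by
        rw [hcdef]
        exact_mod_cast Nat.add_one_mul_choose_eq (p + 2) (w + 1)
      have e2 : ((B + 1 : ℕ) : ℝ) * (B.choose (w + 1) : ℝ) =
          ((B + 1).choose (w + 1 + 1) : ℝ) * ((w + 1 + 1 : ℕ) : ℝ) := by
        exact_mod_cast Nat.add_one_mul_choose_eq B (w + 1)
      have e3 : ((s + 1 : ℕ) : ℝ) * (s.choose (w + 1) : ℝ) =
          ((s + 1).choose (w + 1 + 1) : ℝ) * ((w + 1 + 1 : ℕ) : ℝ) := by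
        exact_mod_cast Nat.add_one_mul_choose_eq s (w + 1)
      have a1 : ((w : ℝ) + 3) * s.choose (w + 1) ≤ c - 1 / 2 := by
        have := GC9_small p w (s + 1) s w1 wp rb le_rfl
        linarith
      push_cast at cv e1 e2 e3 h1 h2 hPR ⊢
      set fq : ℝ := ((B + 1).choose (w + 1 + 1) : ℝ)
      set fr : ℝ := ((s + 1).choose (w + 1 + 1) : ℝ)
      set fb : ℝ := ((p + 3).choose (w + 1 + 1) : ℝ)
      set cB : ℝ := (B.choose (w + 1) : ℝ)
      set cs : ℝ := (s.choose (w + 1) : ℝ)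
      have hw0 : (0 : ℝ) ≤ w := Nat.cast_nonneg w
      -- multiply the convexity inequality by `(u + 1) u`
      have b1 : ((w : ℝ) + 3) * cB * ((B : ℝ) + 1) * ((p : ℝ) + 3 - (s + 1)) ≤
          ((p : ℝ) + 2 - B) * (s + 1) * (c - 1 / 2) +
            ((w : ℝ) + 3) * ((B : ℝ) - s) * (((p : ℝ) + 3) * c) := by
        have b2 := mul_le_mul_of_nonneg_left cv
          (mul_nonneg (by linarith : (0 : ℝ) ≤ (w : ℝ) + 3) (by linarith : (0 : ℝ) ≤ (w : ℝ) + 1 + 1))
        have b3 : ((w : ℝ) + 3) * ((w : ℝ) + 1 + 1) * (((p : ℝ) + 3 - (s + 1)) * fq) =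
            ((w : ℝ) + 3) * cB * ((B : ℝ) + 1) * ((p : ℝ) + 3 - (s + 1)) := by
          linear_combination (-(((w : ℝ) + 3) * ((p : ℝ) + 3 - (s + 1)))) * e2
        have b4 : ((w : ℝ) + 3) * ((w : ℝ) + 1 + 1) * (((p : ℝ) + 3 - ((B : ℝ) + 1)) * fr +
            ((B : ℝ) + 1 - (s + 1)) * fb) =
            ((p : ℝ) + 2 - B) * (s + 1) * (((w : ℝ) + 3) * cs) +
              ((w : ℝ) + 3) * ((B : ℝ) - s) * (((p : ℝ) + 3) * c) := by
          linear_combination (-(((w : ℝ) + 3) * ((p : ℝ) + 2 - B))) * e3 -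
            ((w : ℝ) + 3) * ((B : ℝ) - s) * e1
        rw [b3, b4] at b2
        have hs0 : (0 : ℝ) ≤ s := Nat.cast_nonneg s
        have b5 := mul_le_mul_of_nonneg_left a1
          (mul_nonneg (by linarith : (0 : ℝ) ≤ (p : ℝ) + 2 - B) (by linarith : (0 : ℝ) ≤ (s : ℝ) + 1))
        linarith
      have b6 : ((p : ℝ) + 3 - (s + 1)) * ((B : ℝ) + 1) / (4 * ((p : ℝ) + 3) ^ 2) ≤
          ((p : ℝ) + 2 - B) * (s + 1) * (1 / 2) := by
        have hs0 : (0 : ℝ) ≤ s := Nat.cast_nonneg s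
        have c1 : ((p : ℝ) + 3 - (s + 1)) * ((B : ℝ) + 1) ≤ ((p : ℝ) + 3) ^ 2 := by
          rw [sq]
          exact mul_le_mul (by linarith) (by linarith) hq.le hP1.le
        have c2 : ((p : ℝ) + 3 - (s + 1)) * ((B : ℝ) + 1) / (4 * ((p : ℝ) + 3) ^ 2) ≤ 1 / 4 := by
          rw [div_le_div_iff₀ (by positivity) (by norm_num)]
          linarith
        have c3 : (1 : ℝ) ≤ ((p : ℝ) + 2 - B) * (s + 1) := by
          have := mul_le_mul (by linarith : (1 : ℝ) ≤ (p : ℝ) + 2 - B)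
            (by linarith : (1 : ℝ) ≤ (s : ℝ) + 1) (by norm_num) (by linarith)
          linarith
        linarith
      have hden : 0 < ((p : ℝ) + 3 - (s + 1)) * ((B : ℝ) + 1) := mul_pos hPR hq
      have key : ((w : ℝ) + 3) * cB * (((p : ℝ) + 3 - (s + 1)) * ((B : ℝ) + 1)) +
          ((p : ℝ) + 3 - (s + 1)) * ((B : ℝ) + 1) / (4 * ((p : ℝ) + 3) ^ 2) ≤
          c * (((p : ℝ) + 3 - (s + 1)) * ((B : ℝ) + 1) +
            ((w : ℝ) + 2) * (((p : ℝ) + 3) * ((B : ℝ) + 1 - (s + 1)))) := by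
        have e4 : c * (((p : ℝ) + 3 - (s + 1)) * ((B : ℝ) + 1) +
            ((w : ℝ) + 2) * (((p : ℝ) + 3) * ((B : ℝ) + 1 - (s + 1)))) =
            ((p : ℝ) + 2 - B) * (s + 1) * c +
              ((w : ℝ) + 3) * ((B : ℝ) - s) * (((p : ℝ) + 3) * c) := by ring
        rw [e4]
        linarith
      have e5 : c * (1 + ((w : ℝ) + 2) * (((p : ℝ) + 3) * ((B : ℝ) + 1 - (s + 1)) /
          (((p : ℝ) + 3 - (s + 1)) * ((B : ℝ) + 1)))) =
          c * (((p : ℝ) + 3 - (s + 1)) * ((B : ℝ) + 1) +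
            ((w : ℝ) + 2) * (((p : ℝ) + 3) * ((B : ℝ) + 1 - (s + 1)))) /
          (((p : ℝ) + 3 - (s + 1)) * ((B : ℝ) + 1)) := by
        field_simp
      rw [e5, le_div_iff₀ hden]
      refine le_trans (le_of_eq ?_) key
      ring
  · have h3 : 2 * ((r : ℝ) - 1) * ((p : ℝ) + 2) ≤ p * ((p : ℝ) + 2) :=
      mul_le_mul_of_nonneg_right (by linarith) (by linarith)
    have h4 : 2 / 3 * (p : ℝ) * (3 / 2 * ((p : ℝ) + 2)) ≤ 2 / 3 * (p : ℝ) * (2 * (p : ℝ) + 4 - r) :=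
      mul_le_mul_of_nonneg_left (by linarith) (by linarith)
    linarith

end Pool.GV7
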